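import Pool.Agent.PDF.Defs

/-!
# Project PFB (MP_b906c2_al): Pfister's bound is not optimal.  Definitions.
-/

set_option autoImplicit false

namespace Pool.Agent.PFB

open Polynomial Pool.Agent.PDF

/-- `x` is infinitely close to the real number `r`. -/
def Near {k : Type} [Field k] [LinearOrder k] [Algebra ℝ k] (x : k) (r : ℝ) : Prop :=
  ∀ ε : ℝ, 0 < ε → |x - algebraMap ℝ k r| < algebraMap ℝ k ε

/-- the points of `ℝ^s` given by the orderings of `k` through the functions `h j` -/
def Del {k : Type} [Field k] [Algebra ℝ k] {s : ℕ} (h : Fin s → k) : Set (Fin s → ℝ) :=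
  {p | ∃ (_ : LinearOrder k) (_ : IsStrictOrderedRing k), ∀ j, Near (h j) (p j)}

/-- the scaling factor of `P` -/
noncomputable def gg {k : Type} [Field k] (P : k[X]) : k :=
  2 * P.natDegree * (1 + ∑ j ∈ Finset.range P.natDegree, P.coeff j ^ 2)

/-- the cut-off value `P(u g²) / g^{2d}` -/
noncomputable def nu {k : Type} [Field k] (P : k[X]) (u : k) : k :=
  P.eval (u * gg P ^ 2) / (gg P ^ P.natDegree) ^ 2

/-- the residue data on a finite Galois extension `E` of the ordered field `k` -/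
structure Frm (k E : Type) [Field k] [LinearOrder k] [Algebra ℝ k] [Field E] [Algebra k E] where
  /-- the integral closure of the finite elements -/
  B : Subring E
  /-- the residue map -/
  π : B →+* ℂ
  stable : ∀ (g : E ≃ₐ[k] E) (b : E), b ∈ B → g b ∈ B
  int : ∀ (x : E) (p : k[X]), p.Monic → (∀ i, ∃ C : ℝ, |p.coeff i| ≤ algebraMap ℝ k C) →
    aeval x p = 0 → x ∈ B
  real : ∀ (x : k) (h : algebraMap k E x ∈ B), ∃ r : ℝ, π ⟨_, h⟩ = (r : ℂ) ∧ Near x r
  vr : ∀ x : E, ∃ b s : B, x * (s : E) = b ∧ (π s ≠ 0 ∨ π b ≠ 0)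

end Pool.Agent.PFB
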